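import Mathlib

set_option autoImplicit false

/-!
# Divisors of Fermat numbers congruent to 1 modulo a fourth root
-/

namespace Pool.Agent.N682.Quarter

/-- Vieta jumping: if `x ^ 2 + y ^ 2 = c (1 + x y)` then `c = g ^ 2` where `g` divides `x` and `y`. -/
theorem vieta (c : ℤ) (hc : 0 < c) : ∀ n : ℕ, ∀ x y : ℤ, 0 ≤ x → x ≤ y → x + y ≤ n →
    x ^ 2 + y ^ 2 = c * (1 + x * y) → ∃ g : ℤ, 0 < g ∧ c = g ^ 2 ∧ g ∣ x ∧ g ∣ y := by
  intro n
  induction n using Nat.strong_induction_on with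
  | _ n ih =>
    intro x y hx hxy hn h
    rcases hx.eq_or_lt with hx0 | hx0
    · -- x = 0
      subst hx0
      have hy : 0 < y := by
        rcases hxy.eq_or_lt with h0 | h0
        · subst h0
          simp at h
          omega
        · exact h0
      refine ⟨y, hy, ?_, dvd_zero _, dvd_refl _⟩
      nlinarith
    · -- jump
      set z := c * x - y with hz
      have hy : 0 < y := lt_of_lt_of_le hx0 hxy
      have hyz : y * z = x ^ 2 - c := by
        rw [hz]; nlinarith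
      have heq : z ^ 2 + x ^ 2 = c * (1 + z * x) := by
        rw [hz]; nlinarith
      have hz0 : 0 ≤ z := by
        by_contra hneg
        push Not at hneg
        have h1 : z * x ≤ -1 := by nlinarith
        have h2 : 0 < z ^ 2 + x ^ 2 := by positivity
        rw [heq] at h2
        have h3 : 1 + z * x ≤ 0 := by linarith
        nlinarith
      have hzx : z < x := by
        by_contra hge
        push Not at hge
        have : x * x ≤ y * z := by
          calc x * x ≤ y * x := by nlinarith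
            _ ≤ y * z := by nlinarith
        nlinarith
      have hn1 : 0 < n := by
        have : (0 : ℤ) < n := by linarith
        exact_mod_cast this
      obtain ⟨g, hg, hcg, hgz, hgx⟩ := ih (n - 1) (by omega) z x hz0 hzx.le
        (by
          have : ((n - 1 : ℕ) : ℤ) = (n : ℤ) - 1 := by omega
          rw [this]; linarith) heq
      refine ⟨g, hg, hcg, hgx, ?_⟩
      have : y = c * x - z := by rw [hz]; ring
      rw [this]
      exact dvd_sub (dvd_mul_of_dvd_right hgx c) hgz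

/-- A product of two consecutive integers divisible by `4 ^ n`. -/
theorem consec (n : ℕ) (k : ℕ) (hk : 0 < k) (h : 4 ^ n ∣ k * (k + 1)) : 4 ^ n ≤ k + 1 := by
  rcases Nat.eq_zero_or_pos n with rfl | hn
  · simp
  · have hcop : Nat.Coprime k (k + 1) := by simp
    have hpp : IsPrimePow (4 ^ n) := by
      have : (4 : ℕ) ^ n = 2 ^ (2 * n) := by rw [pow_mul]; norm_num
      rw [this]
      exact Nat.prime_two.isPrimePow.pow (by omega)
    rcases (hcop.isPrimePow_dvd_mul hpp).1 h with h1 | h1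
    · exact (Nat.le_of_dvd hk h1).trans (Nat.le_succ k)
    · exact Nat.le_of_dvd (Nat.succ_pos k) h1

/-- The last case of the main lemma. -/
theorem last (e f : ℕ) (he : 1 ≤ e) (hf : 2 * e < f) (A B : ℤ)
    (h1 : A * B = (2 ^ f) ^ 2 - 1) (h2 : A + B = (2 ^ e) ^ 2 * 2 ^ f) : False := by
  obtain ⟨H, hH⟩ : ∃ H : ℤ, H = 2 ^ (2 * e - 1) := ⟨_, rfl⟩
  obtain ⟨S, hS⟩ : ∃ S : ℤ, S = 2 ^ (f - 1) := ⟨_, rfl⟩
  have hG : ((2 : ℤ) ^ e) ^ 2 = 2 * H := by
    rw [hH, ← pow_mul, ← pow_succ']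
    congr 1
    omega
  have hT : (2 : ℤ) ^ f = 2 * S := by
    rw [hS, ← pow_succ']
    congr 1
    omega
  have hH2 : 2 ≤ H := by
    rw [hH]
    calc (2 : ℤ) = 2 ^ 1 := by norm_num
      _ ≤ 2 ^ (2 * e - 1) := pow_le_pow_right₀ (by norm_num) (by omega)
  have hSH : 2 * H ≤ S := by
    rw [hH, hS, ← pow_succ']
    exact pow_le_pow_right₀ (by norm_num) (by omega)
  rw [hT] at h1
  rw [hG, hT] at h2
  -- `A - B = 2 D`
  obtain ⟨D, hD⟩ : ∃ D : ℤ, A - B = 2 * D := ⟨2 * H * S - B, by linarith⟩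
  have hD2 : D ^ 2 = 4 * S ^ 2 * (H ^ 2 - 1) + 1 := by
    have : (2 * D) ^ 2 = (A + B) ^ 2 - 4 * (A * B) := by rw [← hD]; ring
    rw [h2, h1] at this
    nlinarith
  have hSp : 0 < S := by rw [hS]; positivity
  have hodd : ∃ k : ℕ, (D.natAbs : ℕ) = 2 * k + 1 := by
    have h3 : (D.natAbs : ℤ) ^ 2 = 4 * S ^ 2 * (H ^ 2 - 1) + 1 := by
      rw [Int.natAbs_sq, hD2]
    have h4 : ¬ Even D.natAbs := by
      intro he
      obtain ⟨r, hr⟩ := he
      rw [hr] at h3
      push_cast at h3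
      have : (4 : ℤ) * ((r : ℤ) ^ 2 - S ^ 2 * (H ^ 2 - 1)) = 1 := by nlinarith
      omega
    rw [Nat.not_even_iff_odd] at h4
    exact h4
  obtain ⟨k, hk⟩ := hodd
  have hDk : D ^ 2 = (2 * (k : ℤ) + 1) ^ 2 := by
    rw [← Int.natAbs_sq, hk]; push_cast; ring
  have hkk : (k : ℤ) * (k + 1) = S ^ 2 * (H ^ 2 - 1) := by nlinarith
  have hpos : 0 < S ^ 2 * (H ^ 2 - 1) := by
    apply mul_pos (by positivity)
    nlinarith
  have hk0 : 0 < k := by
    rcases Nat.eq_zero_or_pos k with h0 | h0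
    · rw [h0] at hkk
      simp at hkk
      rcases hkk with h | h
      · omega
      · nlinarith
    · exact h0
  have hdvd : 4 ^ (f - 1) ∣ k * (k + 1) := by
    have h5 : ((4 ^ (f - 1) : ℕ) : ℤ) ∣ ((k * (k + 1) : ℕ) : ℤ) := by
      push_cast
      rw [hkk, hS, ← pow_mul, mul_comm (f - 1) 2, pow_mul]
      norm_num
    exact_mod_cast h5
  have h6 := consec (f - 1) k hk0 hdvd
  have h7 : S ^ 2 ≤ (k : ℤ) + 1 := by
    have : (S : ℤ) ^ 2 = ((4 ^ (f - 1) : ℕ) : ℤ) := by
      push_cast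
      rw [hS, ← pow_mul, mul_comm (f - 1) 2, pow_mul]
      norm_num
    rw [this]
    exact_mod_cast h6
  -- `2 k + 1 < 2 S H ≤ S ^ 2`
  have h8 : (2 * (k : ℤ) + 1) ^ 2 < (2 * S * H) ^ 2 := by
    rw [← hDk, hD2]
    nlinarith
  have h9 : 2 * (k : ℤ) + 1 < 2 * S * H := lt_of_pow_lt_pow_left₀ 2 (by positivity) h8
  nlinarith

/-- The powers of `2` which are fourth roots: if `t = 2 ^ K` and `1 + t ^ 4` has a proper divisor
congruent to `1` modulo `t` then `3 ∣ K`. -/
theorem core (K : ℕ) (a b : ℤ) (ha : 0 < a) (hb : 0 < b)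
    (h : (1 + a * 2 ^ K) * (1 + b * 2 ^ K) = 1 + (2 ^ K) ^ 4) : 3 ∣ K := by
  obtain ⟨t, ht⟩ : ∃ t : ℤ, t = 2 ^ K := ⟨_, rfl⟩
  have ht0 : 0 < t := by rw [ht]; positivity
  rw [← ht] at h
  have h1 : a + b + a * b * t = t ^ 3 := by
    have : t * (a + b + a * b * t) = t * t ^ 3 := by nlinarith
    exact mul_left_cancel₀ ht0.ne' this
  obtain ⟨c, hc⟩ : t ∣ a + b := by
    have h2 : a + b = t * (t ^ 2 - a * b) := by nlinarith
    exact ⟨_, h2⟩
  have hc0 : 0 < c := by
    by_contra hneg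
    push Not at hneg
    nlinarith
  have h2 : c + a * b = t ^ 2 := by
    have : t * (c + a * b) = t * t ^ 2 := by nlinarith
    exact mul_left_cancel₀ ht0.ne' this
  have h3 : a ^ 2 + t ^ 2 = c * (1 + a * t) := by nlinarith
  obtain ⟨g, hg, hcg, hga, hgt⟩ : ∃ g : ℤ, 0 < g ∧ c = g ^ 2 ∧ g ∣ a ∧ g ∣ t := by
    rcases le_total a t with hat | hat
    · exact vieta c hc0 (a + t).toNat a t ha.le hat (by omega) h3
    · obtain ⟨g, q1, q2, q3, q4⟩ := vieta c hc0 (t + a).toNat t a ht0.le hat (by omega)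
        (by nlinarith)
      exact ⟨g, q1, q2, q4, q3⟩
  -- `g = 2 ^ e`
  obtain ⟨e, heK, hge⟩ : ∃ e ≤ K, g = 2 ^ e := by
    have h4 : g.natAbs ∣ 2 ^ K := by
      have := Int.natAbs_dvd_natAbs.2 hgt
      rw [ht] at this
      simpa [Int.natAbs_pow] using this
    obtain ⟨e, he1, he2⟩ := (Nat.dvd_prime_pow Nat.prime_two).1 h4
    refine ⟨e, he1, ?_⟩
    have : g = (g.natAbs : ℤ) := by omega
    rw [this, he2]
    push_cast
    rfl
  obtain ⟨A, hA⟩ := hga
  obtain ⟨f, hf⟩ : ∃ f, K = e + f := ⟨K - e, by omega⟩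
  obtain ⟨T, hT⟩ : ∃ T : ℤ, T = 2 ^ f := ⟨_, rfl⟩
  have htT : t = g * T := by rw [ht, hf, pow_add, ← hge, ← hT]
  have hT0 : 0 < T := by rw [hT]; positivity
  have hA0 : 0 < A := by
    by_contra hneg
    push Not at hneg
    nlinarith
  have h5 : A ^ 2 + T ^ 2 = 1 + g ^ 2 * A * T := by
    have : g ^ 2 * (A ^ 2 + T ^ 2) = g ^ 2 * (1 + g ^ 2 * A * T) := by
      rw [hA, htT, hcg] at h3
      nlinarith
    exact mul_left_cancel₀ (by positivity) this
  have h6 : A * (g ^ 2 * T - A) = T ^ 2 - 1 := by nlinarith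
  rcases Nat.eq_zero_or_pos f with hf0 | hf0
  · -- `T = 1`
    exfalso
    subst hf0
    simp at hT
    subst hT
    have h7 : A * (g ^ 2 - A) = 0 := by linarith
    rcases mul_eq_zero.1 h7 with h8 | h8
    · omega
    · have h9 : A = g ^ 2 := by linarith
      have h10 : a * t = t ^ 4 := by rw [hA, htT, h9]; ring
      rw [h10] at h
      have h11 : (1 + t ^ 4) * (b * t) = 0 := by nlinarith
      have h12 : 0 < (1 + t ^ 4) * (b * t) := by positivity
      omega
  · have hT2 : 2 ≤ T := by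
      rw [hT]
      calc (2 : ℤ) = 2 ^ 1 := by norm_num
        _ ≤ 2 ^ f := pow_le_pow_right₀ (by norm_num) hf0
    have hBpos : 0 < g ^ 2 * T - A := by
      by_contra hneg
      push Not at hneg
      nlinarith
    rcases lt_trichotomy f (2 * e) with hlt | heq | hgt
    · -- `f < 2 e`
      exfalso
      have h7 : 2 * T ≤ g ^ 2 := by
        rw [hge, hT, ← pow_mul, ← pow_succ']
        exact pow_le_pow_right₀ (by norm_num) (by omega)
      obtain ⟨B, hB⟩ : ∃ B : ℤ, B = g ^ 2 * T - A := ⟨_, rfl⟩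
      rw [← hB] at h6 hBpos
      have h8 : 0 ≤ (A - 1) * (B - 1) := mul_nonneg (by linarith) (by linarith)
      have h9 : 2 * T * T ≤ g ^ 2 * T := mul_le_mul_of_nonneg_right h7 hT0.le
      have h10 : 0 < T * T := mul_pos hT0 hT0
      have e1 : (A - 1) * (B - 1) = A * B - (A + B) + 1 := by ring
      have e2 : A + B = g ^ 2 * T := by rw [hB]; ring
      have e3 : T ^ 2 = T * T := sq T
      rw [e1, e2, h6, e3] at h8
      have e4 : 2 * T * T = 2 * (T * T) := by ring
      rw [e4] at h9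
      linarith
    · omega
    · exfalso
      rcases Nat.eq_zero_or_pos e with he0 | he0
      · subst he0
        simp at hge
        rw [hge] at h5
        have q1 : 0 ≤ (2 * A - T) ^ 2 := sq_nonneg _
        have q2 : (2 * A - T) ^ 2 = 4 * (A ^ 2 + T ^ 2) - 4 * (A * T) - 3 * T ^ 2 := by ring
        have q3 : A ^ 2 + T ^ 2 = 1 + A * T := by rw [h5]; ring
        have q4 : 2 * 2 ≤ T * T := mul_le_mul hT2 hT2 (by norm_num) hT0.le
        have q5 : T ^ 2 = T * T := sq T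
        rw [q2, q3, q5] at q1
        linarith
      · refine last e f he0 hgt A (g ^ 2 * T - A) ?_ ?_
        · rw [h6, hT]
        · rw [← hge, ← hT]; ring


/-- **No proper divisor of a Fermat number is congruent to `1` modulo its fourth root.** -/
theorem divisor (m : ℕ) (hm : 2 ≤ m) (d : ℕ) (hd : d ∣ Nat.fermatNumber m)
    (h1 : 2 ^ 2 ^ (m - 2) ∣ d - 1) : d = 1 ∨ d = Nat.fermatNumber m := by
  obtain ⟨K, hK⟩ : ∃ K, K = 2 ^ (m - 2) := ⟨_, rfl⟩
  have hK0 : 0 < K := by rw [hK]; positivity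
  have h4K : 2 ^ m = 4 * K := by
    obtain ⟨j, rfl⟩ : ∃ j, m = j + 2 := ⟨m - 2, by omega⟩
    rw [hK, Nat.add_sub_cancel, pow_add]
    ring
  have h3K : ¬ 3 ∣ K := by
    intro h3
    rw [hK] at h3
    have := Nat.prime_three.dvd_of_dvd_pow h3
    omega
  have hF : Nat.fermatNumber m = 1 + (2 ^ K) ^ 4 := by
    rw [Nat.fermatNumber, h4K, mul_comm 4 K, pow_mul]
    ring
  rw [← hK] at h1
  by_contra hne
  push Not at hne
  obtain ⟨hne1, hneF⟩ := hne
  obtain ⟨e, he⟩ := hd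
  have hFpos : 0 < Nat.fermatNumber m := by rw [hF]; positivity
  have hd0 : 0 < d := Nat.pos_of_ne_zero (by rintro rfl; simp at he; omega)
  have he0 : 0 < e := Nat.pos_of_ne_zero (by rintro rfl; simp at he; omega)
  have he1 : e ≠ 1 := by
    rintro rfl
    rw [mul_one] at he
    exact hneF he.symm
  obtain ⟨a, ha⟩ := h1
  have hda : d = 1 + 2 ^ K * a := by omega
  have hea : 2 ^ K ∣ e - 1 := by
    have h5 : d * e = 1 + (2 ^ K) ^ 4 := by rw [← he, hF]
    have h6 : e - 1 + 2 ^ K * (a * e) = 2 ^ K * (2 ^ K) ^ 3 := by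
      have h7 : (1 + 2 ^ K * a) * e = 1 + (2 ^ K) ^ 4 := by rw [← hda]; exact h5
      have h8 : (1 + 2 ^ K * a) * e = e + 2 ^ K * (a * e) := by ring
      have h9 : 2 ^ K * (2 ^ K) ^ 3 = (2 ^ K) ^ 4 := by ring
      omega
    exact (Nat.dvd_add_left ⟨a * e, rfl⟩).1 (h6 ▸ ⟨(2 ^ K) ^ 3, rfl⟩)
  obtain ⟨b, hb⟩ := hea
  have heb : e = 1 + 2 ^ K * b := by omega
  have ha0 : 0 < a := Nat.pos_of_ne_zero (by rintro rfl; omega)
  have hb0 : 0 < b := Nat.pos_of_ne_zero (by rintro rfl; omega)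
  apply h3K
  apply core K a b (by exact_mod_cast ha0) (by exact_mod_cast hb0)
  have h5 : d * e = 1 + (2 ^ K) ^ 4 := by rw [← he, hF]
  rw [hda, heb] at h5
  have h6 : (((1 + 2 ^ K * a) * (1 + 2 ^ K * b) : ℕ) : ℤ) = ((1 + (2 ^ K) ^ 4 : ℕ) : ℤ) := by
    rw [h5]
  push_cast at h6
  rw [← h6]
  ring

/-- The criterion. -/
theorem criterion (m : ℕ) (hm : 2 ≤ m) : (Nat.fermatNumber m).Prime ↔
    ∃ b : ZMod (Nat.fermatNumber m), b ^ 2 ^ (2 ^ (m - 2) - 1) = -1 := by
  obtain ⟨K, hK⟩ : ∃ K, K = 2 ^ (m - 2) := ⟨_, rfl⟩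
  have hK0 : 0 < K := by rw [hK]; positivity
  have h4K : 2 ^ m = 4 * K := by
    obtain ⟨j, rfl⟩ : ∃ j, m = j + 2 := ⟨m - 2, by omega⟩
    rw [hK, Nat.add_sub_cancel, pow_add]
    ring
  rw [← hK]
  constructor
  · intro hp
    have : Fact (Nat.fermatNumber m).Prime := ⟨hp⟩
    obtain ⟨g, hg⟩ := IsCyclic.exists_generator (α := (ZMod (Nat.fermatNumber m))ˣ)
    have hord : orderOf g = 2 ^ (4 * K) := by
      rw [orderOf_eq_card_of_forall_mem_zpowers hg, Nat.card_eq_fintype_card, ZMod.card_units,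
        Nat.fermatNumber, h4K, Nat.add_sub_cancel]
    refine ⟨((g ^ 2 ^ (3 * K) : (ZMod (Nat.fermatNumber m))ˣ) : ZMod (Nat.fermatNumber m)), ?_⟩
    have h1 : ((g : ZMod (Nat.fermatNumber m)) ^ (2 ^ (4 * K - 1))) ^ 2 = 1 := by
      rw [← pow_mul, ← pow_succ, Nat.sub_add_cancel (by omega), ← hord, ← Units.val_pow_eq_pow_val,
        pow_orderOf_eq_one, Units.val_one]
    have h2 : (g : ZMod (Nat.fermatNumber m)) ^ (2 ^ (4 * K - 1)) ≠ 1 := by
      intro h
      have h3 : g ^ 2 ^ (4 * K - 1) = 1 := by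
        ext
        rw [Units.val_pow_eq_pow_val, h, Units.val_one]
      have h4 := orderOf_dvd_of_pow_eq_one h3
      rw [hord, Nat.pow_dvd_pow_iff_le_right (by norm_num)] at h4
      omega
    have h5 : (g : ZMod (Nat.fermatNumber m)) ^ (2 ^ (4 * K - 1)) = -1 := by
      rw [sq] at h1
      rcases mul_self_eq_one_iff.1 h1 with h | h
      · exact absurd h h2
      · exact h
    rw [Units.val_pow_eq_pow_val, ← pow_mul, ← pow_add, show 3 * K + (K - 1) = 4 * K - 1 by omega]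
    exact h5
  · rintro ⟨b, hb⟩
    have hF3 : 3 ≤ Nat.fermatNumber m := Nat.three_le_fermatNumber m
    have hmf := Nat.minFac_prime (n := Nat.fermatNumber m) (by omega)
    set q := (Nat.fermatNumber m).minFac with hq
    have hqd : q ∣ Nat.fermatNumber m := Nat.minFac_dvd _
    have : Fact q.Prime := ⟨hmf⟩
    have hq2 : q ≠ 2 := by
      intro h2
      rw [h2] at hqd
      have hodd := Nat.odd_fermatNumber m
      rw [← Nat.not_even_iff_odd] at hodd
      exact hodd (even_iff_two_dvd.2 hqd)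
    have h1 : (ZMod.castHom hqd (ZMod q) b) ^ 2 ^ (K - 1) = -1 := by
      rw [← map_pow, hb, map_neg, map_one]
    set x := ZMod.castHom hqd (ZMod q) b with hx
    have hne : (-1 : ZMod q) ≠ 1 := by
      have : Fact (2 < q) := ⟨lt_of_le_of_ne hmf.two_le (Ne.symm hq2)⟩
      exact ZMod.neg_one_ne_one
    have hord : orderOf x = 2 ^ (K - 1 + 1) := by
      apply orderOf_eq_prime_pow
      · rw [h1]; exact hne
      · rw [pow_succ, pow_mul, h1]; norm_num
    have hdvd : 2 ^ K ∣ q - 1 := by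
      rw [show K = K - 1 + 1 by omega, ← hord]
      apply orderOf_dvd_of_pow_eq_one
      apply ZMod.pow_card_sub_one_eq_one
      rintro h0
      rw [h0, zero_pow (by positivity)] at h1
      have : (1 : ZMod q) = 0 := by
        rw [← neg_neg (1 : ZMod q), ← h1, neg_zero]
      exact one_ne_zero this
    rcases divisor m hm q hqd (by rw [← hK]; exact hdvd) with h | h
    · exact absurd h hmf.one_lt.ne'
    · rw [← h]; exact hmf

end Pool.Agent.N682.Quarter
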